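import Pool.Agent.N589.LL.Tasks

/-!
# LL/14: the harmonic cochain `f_2`
-/

open scoped WithZero Polynomial MatrixGroups
open IsDedekindDomain RestrictedProduct

noncomputable section

namespace N589LL

namespace TF2

/-! ## Reduction to the residue field `F_2` -/

section red

variable {F : Type} [Field F] (v : Valuation F ℤᵐ⁰)

open Classical in
/-- Reduction modulo the maximal ideal, for residue field `F_2`. -/
def red (x : F) : ZMod 2 := if v x < 1 then 0 else 1

variable {v}

lemma red_eq_zero {x : F} : red v x = 0 ↔ v x < 1 := by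
  unfold red; split_ifs with h <;> simp [h]

lemma red_eq_one {x : F} : red v x = 1 ↔ ¬ v x < 1 := by
  unfold red; split_ifs with h <;> simp [h]

variable (hres : ∀ x, v x ≤ 1 → v x < 1 ∨ v (x - 1) < 1)

include hres in
lemma red_add {x y : F} (hx : v x ≤ 1) (hy : v y ≤ 1) : red v (x + y) = red v x + red v y := by
  have two : v (2 : F) < 1 := by
    rcases hres 2 (by
      have : (2 : F) = 1 + 1 := by norm_num
      rw [this]; exact (v.map_add _ _).trans (by simp)) with h | h
    · exact h
    · exfalso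
      have : (2 : F) - 1 = 1 := by norm_num
      rw [this, map_one] at h
      exact lt_irrefl _ h
  rcases hres x hx with h1 | h1 <;> rcases hres y hy with h2 | h2
  · rw [red_eq_zero.2 h1, red_eq_zero.2 h2, add_zero, red_eq_zero]
    exact v.map_add_lt h1 h2
  · have h2' : ¬ v y < 1 := fun h => by
      have : v (y - (y - 1)) < 1 := v.map_sub_lt h h2
      simp at this
    rw [red_eq_zero.2 h1, red_eq_one.2 h2', zero_add, red_eq_one]
    intro h
    apply h2'
    have : y = (x + y) - x := by ring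
    rw [this]; exact v.map_sub_lt h h1
  · have h1' : ¬ v x < 1 := fun h => by
      have : v (x - (x - 1)) < 1 := v.map_sub_lt h h1
      simp at this
    rw [red_eq_zero.2 h2, red_eq_one.2 h1', add_zero, red_eq_one]
    intro h
    apply h1'
    have : x = (x + y) - y := by ring
    rw [this]; exact v.map_sub_lt h h2
  · have h1' : ¬ v x < 1 := fun h => by
      have : v (x - (x - 1)) < 1 := v.map_sub_lt h h1
      simp at this
    have h2' : ¬ v y < 1 := fun h => by
      have : v (y - (y - 1)) < 1 := v.map_sub_lt h h2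
      simp at this
    rw [red_eq_one.2 h1', red_eq_one.2 h2']
    have : (1 : ZMod 2) + 1 = 0 := by decide
    rw [this, red_eq_zero]
    have : x + y = ((x - 1) + (y - 1)) + 2 := by ring
    rw [this]
    exact v.map_add_lt (v.map_add_lt h1 h2) two

lemma red_mul {x y : F} (hx : v x ≤ 1) (hy : v y ≤ 1) : red v (x * y) = red v x * red v y := by
  by_cases h1 : v x < 1
  · rw [red_eq_zero.2 h1, zero_mul, red_eq_zero, map_mul]
    exact lt_of_le_of_lt (mul_le_of_le_one_right' hy) h1
  · by_cases h2 : v y < 1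
    · rw [red_eq_zero.2 h2, mul_zero, red_eq_zero, map_mul]
      exact lt_of_le_of_lt (mul_le_of_le_one_left' hx) h2
    · rw [red_eq_one.2 h1, red_eq_one.2 h2, one_mul, red_eq_one, map_mul]
      have e1 : v x = 1 := le_antisymm hx (not_lt.1 h1)
      have e2 : v y = 1 := le_antisymm hy (not_lt.1 h2)
      rw [e1, e2, one_mul]; exact lt_irrefl _

lemma red_neg {x : F} : red v (-x) = red v x := by
  unfold red; rw [Valuation.map_neg]

lemma red_one : red v (1 : F) = 1 := by
  rw [red_eq_one, map_one]; exact lt_irrefl _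

lemma red_zero : red v (0 : F) = 0 := by
  rw [red_eq_zero, map_zero]; exact zero_lt_one

end red

section iwc

variable {F : Type} [Field F] {v : Valuation F ℤᵐ⁰}
  (hres : ∀ x, v x ≤ 1 → v x < 1 ∨ v (x - 1) < 1)

/-- the `(1,0)` entry of `y⁻¹ x`. -/
lemma inv_mul_one_zero (x y : GL (Fin 2) F) :
    (y⁻¹ * x).val 1 0 * (y.val 0 0 * y.val 1 1 - y.val 0 1 * y.val 1 0) =
      y.val 0 0 * x.val 1 0 - y.val 1 0 * x.val 0 0 := by
  have e : y.val * (y⁻¹ * x).val = x.val := by
    rw [← Units.val_mul]; congr 1; group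
  have e0 := congrFun (congrFun e 0) 0
  have e1 := congrFun (congrFun e 1) 0
  simp only [Matrix.mul_apply, Fin.sum_univ_two] at e0 e1
  rw [← e0, ← e1]; ring

lemma det_val_eq_one {g : GL (Fin 2) F} (hg : g ∈ glInt v) :
    v (g.val 0 0 * g.val 1 1 - g.val 0 1 * g.val 1 0) = 1 := by
  have h1 : ∀ g : GL (Fin 2) F, g ∈ glInt v →
      v (g.val 0 0 * g.val 1 1 - g.val 0 1 * g.val 1 0) ≤ 1 := by
    intro g hg
    refine (v.map_sub _ _).trans (max_le ?_ ?_) <;> rw [map_mul] <;>
      exact mul_le_one' (hg.1 _ _) (hg.1 _ _)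
  have e : (g.val * g⁻¹.val).det = 1 := by rw [← Units.val_mul]; simp
  rw [Matrix.det_mul, Matrix.det_fin_two, Matrix.det_fin_two] at e
  have e' := congrArg v e
  rw [map_mul, map_one] at e'
  refine le_antisymm (h1 g hg) ?_
  rw [← e']
  exact mul_le_of_le_one_right' (h1 _ (inv_mem hg))

lemma inv_mul_mem_Iw {x y : GL (Fin 2) F} (hx : x ∈ glInt v) (hy : y ∈ glInt v)
    (h : v (y.val 0 0 * x.val 1 0 - y.val 1 0 * x.val 0 0) < 1) : y⁻¹ * x ∈ Iw v := by
  refine ⟨mul_mem (inv_mem hy) hx, ?_⟩
  rw [← inv_mul_one_zero, map_mul, det_val_eq_one hy, mul_one] at h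
  exact h

lemma wm_mem : (wm : GL (Fin 2) F) ∈ glInt v := by
  constructor <;> intro i j <;> fin_cases i <;> fin_cases j <;> simp [wm]

lemma lwr_mem {x : F} (hx : v x ≤ 1) : (lwr x : GL (Fin 2) F) ∈ glInt v := by
  constructor <;> intro i j <;> fin_cases i <;> fin_cases j <;> simp [lwr, hx]

/-- The function on `F_2^2` of a right `Iw`-invariant function. -/
def phi (f : GL (Fin 2) F → ℂ) : ZMod 2 → ZMod 2 → ℂ := fun a c =>
  if c = 0 then f 1 else if a = 0 then f wm else f (lwr 1)

include hres in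
lemma eq_phi (f : GL (Fin 2) F → ℂ) (hf : ∀ g, ∀ i ∈ Iw v, f (g * i) = f g)
    {x : GL (Fin 2) F} (hx : x ∈ glInt v) :
    f x = phi f (red v (x.val 0 0)) (red v (x.val 1 0)) := by
  have key : ∀ y : GL (Fin 2) F, y ∈ glInt v →
      v (y.val 0 0 * x.val 1 0 - y.val 1 0 * x.val 0 0) < 1 → f x = f y := by
    intro y hy h
    have := hf y _ (inv_mul_mem_Iw hx hy h)
    rw [mul_inv_cancel_left] at this
    exact this
  unfold phi
  split_ifs with h1 h2
  · rw [red_eq_zero] at h1
    refine key 1 (one_mem _) ?_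
    simpa using h1
  · rw [red_eq_zero] at h2
    refine key wm wm_mem ?_
    simpa [wm] using h2
  · refine key (lwr 1) (lwr_mem (by simp)) ?_
    have e1 : ¬ v (x.val 1 0) < 1 := fun h => h1 (red_eq_zero.2 h)
    have e2 : ¬ v (x.val 0 0) < 1 := fun h => h2 (red_eq_zero.2 h)
    have e3 := (hres _ (hx.1 1 0)).resolve_left e1
    have e4 := (hres _ (hx.1 0 0)).resolve_left e2
    have : (lwr (1 : F)).val 0 0 * x.val 1 0 - (lwr (1 : F)).val 1 0 * x.val 0 0 =
        (x.val 1 0 - 1) - (x.val 0 0 - 1) := by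
      simp [lwr]
    rw [this]
    exact v.map_sub_lt e3 e4

lemma perm_sum (Φ : ZMod 2 → ZMod 2 → ℂ) (a b c d : ZMod 2) (h : a * d + b * c = 1) :
    Φ a c + Φ b d + Φ (a + b) (c + d) = Φ 1 0 + Φ 0 1 + Φ 1 1 := by
  have h2 : ∀ x : ZMod 2, x = 0 ∨ x = 1 := by decide
  have h11 : (1 : ZMod 2) + 1 = 0 := by decide
  rcases h2 a with rfl | rfl <;> rcases h2 b with rfl | rfl <;> rcases h2 c with rfl | rfl <;>
    rcases h2 d with rfl | rfl <;>
    first
      | (exfalso; revert h; decide)
      | (simp only [zero_add, add_zero, h11]; try ring)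

include hres in
/-- The sum over `GL_2(O)/Iw` is invariant. -/
lemma sum_inv (f : GL (Fin 2) F → ℂ) (hf : ∀ g, ∀ i ∈ Iw v, f (g * i) = f g)
    {k : GL (Fin 2) F} (hk : k ∈ glInt v) :
    f k + f (k * wm) + f (k * lwr 1) = f 1 + f wm + f (lwr 1) := by
  have e1 := eq_phi hres f hf hk
  have e2 := eq_phi hres f hf (mul_mem hk wm_mem)
  have e3 := eq_phi hres f hf (mul_mem hk (lwr_mem (x := 1) (by simp)))
  have a1 : (k * wm).val 0 0 = k.val 0 1 := by
    simp [wm, Matrix.mul_apply, Fin.sum_univ_two]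
  have a2 : (k * wm).val 1 0 = k.val 1 1 := by
    simp [wm, Matrix.mul_apply, Fin.sum_univ_two]
  have a3 : (k * lwr 1).val 0 0 = k.val 0 0 + k.val 0 1 := by
    simp [lwr, Matrix.mul_apply, Fin.sum_univ_two]
  have a4 : (k * lwr 1).val 1 0 = k.val 1 0 + k.val 1 1 := by
    simp [lwr, Matrix.mul_apply, Fin.sum_univ_two]
  rw [a1, a2] at e2
  rw [a3, a4, red_add hres (hk.1 _ _) (hk.1 _ _), red_add hres (hk.1 _ _) (hk.1 _ _)] at e3
  have hd : red v (k.val 0 0) * red v (k.val 1 1) + red v (k.val 0 1) * red v (k.val 1 0) = 1 := by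
    have h := det_val_eq_one hk
    have h' : red v (k.val 0 0 * k.val 1 1 - k.val 0 1 * k.val 1 0) = 1 := by
      rw [red_eq_one, h]; exact lt_irrefl _
    rw [sub_eq_add_neg, red_add hres, red_neg, red_mul (hk.1 _ _) (hk.1 _ _),
      red_mul (hk.1 _ _) (hk.1 _ _)] at h'
    · exact h'
    · rw [map_mul]; exact mul_le_one' (hk.1 _ _) (hk.1 _ _)
    · rw [Valuation.map_neg, map_mul]; exact mul_le_one' (hk.1 _ _) (hk.1 _ _)
  rw [e1, e2, e3]
  have hphi1 : f 1 = phi f 1 0 := by simp [phi]
  have hphi2 : f wm = phi f 0 1 := by simp [phi]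
  have hphi3 : f (lwr 1) = phi f 1 1 := by simp [phi]
  rw [hphi1, hphi2, hphi3]
  exact perm_sum _ _ _ _ _ hd

end iwc

/-! ## Explicit matrix identities -/

lemma pv_none_X : pv none (RatFunc.X : K) = WithZero.exp 1 := by
  classical
  unfold pv
  exact RatFunc.inftyValuation.X (ZMod 2)

lemma val_tInf : val none (tInf : Kv none) = WithZero.exp 1 := by
  have : (tInf : Kv none) = incl none RatFunc.X := rfl
  rw [this, val_incl, pv_none_X]

lemma val_piInf : val none (piInf : Kv none) = WithZero.exp (-1) := by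
  unfold piInf
  rw [Units.val_inv_eq_inv_val, map_inv₀, val_tInf, WithZero.exp_neg]

lemma two_eq_zero (v : Place) : (2 : Kv v) = 0 := by
  have h : (2 : K) = 0 := by
    have h1 := congrArg (algebraMap (ZMod 2) K) (show (2 : ZMod 2) = 0 by decide)
    rwa [map_ofNat, map_zero] at h1
  have h2 := congrArg (incl v) h
  rwa [map_ofNat, map_zero] at h2

lemma t_mul_pi : (tInf : Kv none) * (piInf : Kv none) = 1 := by
  unfold piInf; simp

/-- `η² = ϖ`. -/
lemma eta_sq : eta piInf * eta piInf = sca piInf := by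
  apply Units.ext
  ext i j
  fin_cases i <;> fin_cases j <;> simp [eta, sca, bor, Matrix.mul_apply, Fin.sum_univ_two]

lemma id_one (m : ℕ) : dg (tInf ^ m) 1 * eta piInf = dg (tInf ^ (m + 1)) 1 * wm * sca piInf := by
  apply Units.ext
  ext i j
  have h := t_mul_pi
  fin_cases i <;> fin_cases j <;>
    simp [eta, sca, dg, wm, bor, Matrix.mul_apply, Fin.sum_univ_two, pow_succ, mul_assoc, h]

lemma id_two (m : ℕ) : dg (tInf ^ (m + 1)) 1 * wm * eta piInf = dg (tInf ^ m) 1 := by
  apply Units.ext
  ext i j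
  have h := t_mul_pi
  fin_cases i <;> fin_cases j <;>
    simp [eta, dg, wm, bor, Matrix.mul_apply, Fin.sum_univ_two, pow_succ, mul_assoc, h]

lemma id_three (m : ℕ) : dg (tInf ^ (m + 1)) 1 * lwr 1 * eta piInf =
    upr ((tInf : Kv none) ^ (m + 1)) * dg (tInf ^ m) 1 * lwr (piInf : Kv none) := by
  apply Units.ext
  ext i j
  have h := t_mul_pi
  have h2 : ∀ x : Kv none, x + x = 0 := fun x => by
    rw [← two_mul, two_eq_zero, zero_mul]
  fin_cases i <;> fin_cases j <;>
    simp [eta, dg, lwr, upr, bor, Matrix.mul_apply, Fin.sum_univ_two, pow_succ, mul_assoc, h,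
      h2]

/-- `η` normalises `Iw`. -/
lemma eta_conj {g : Gv none} (hg : g ∈ Iw (val none)) :
    (eta piInf)⁻¹ * g * eta piInf ∈ Cv none := by
  have key : ∀ g : Gv none, g ∈ Iw (val none) →
      ∀ i j, val none (((eta piInf)⁻¹ * g * eta piInf).val i j) ≤ 1 := by
    intro g hg i j
    have hc : val none ((tInf : Kv none) * g.val 1 0) ≤ 1 := by
      have h := hg.2
      rw [map_mul, val_tInf, ← WithZero.lt_mul_exp_iff_le one_ne_zero, one_mul]
      calc WithZero.exp 1 * (val none (g.val 1 0)) < WithZero.exp 1 * 1 :=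
            mul_lt_mul_of_pos_left h (by simp)
        _ = WithZero.exp 1 := mul_one _
    have hb : val none (g.val 0 1 * (piInf : Kv none)) ≤ 1 := by
      rw [map_mul, val_piInf]
      refine mul_le_one' (hg.1.1 0 1) ?_
      rw [← WithZero.exp_zero, WithZero.exp_le_exp]; norm_num
    have h := t_mul_pi
    have h' : (piInf : Kv none) * (tInf : Kv none) = 1 := by rw [mul_comm, h]
    have ht : ((piInf⁻¹ : (Kv none)ˣ) : Kv none) = tInf := by simp [piInf]
    have e : ((eta piInf)⁻¹ * g * eta piInf).val =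
        !![g.val 1 1, tInf * g.val 1 0; g.val 0 1 * piInf, g.val 0 0] := by
      have e1 : ((eta piInf)⁻¹ : Gv none).val = !![0, (tInf : Kv none); 1, 0] := by
        rw [← ht]; rfl
      have e2 : (eta piInf : Gv none).val = !![0, 1; (piInf : Kv none), 0] := rfl
      rw [Units.val_mul, Units.val_mul, e1, e2]
      conv_lhs => rw [Matrix.eta_fin_two g.val]
      rw [Matrix.mul_fin_two, Matrix.mul_fin_two]
      simp only [zero_mul, zero_add, one_mul, add_zero, mul_zero, mul_one]
      rw [mul_right_comm, h, one_mul]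
    rw [e]
    fin_cases i <;> fin_cases j
    · exact hg.1.1 1 1
    · exact hc
    · exact hb
    · exact hg.1.1 0 0
  refine ⟨key g hg, ?_⟩
  have e : ((eta piInf)⁻¹ * g * eta piInf)⁻¹ = (eta piInf)⁻¹ * g⁻¹ * eta piInf := by group
  rw [e]
  exact key _ (inv_mem hg)

lemma sca_mul {F : Type} [Field F] (a b : Fˣ) : sca (a * b) = sca a * sca b := by
  apply Units.ext
  ext i j
  fin_cases i <;> fin_cases j <;> simp [sca, bor, Matrix.mul_apply, Fin.sum_univ_two]

lemma sca_one {F : Type} [Field F] : sca (1 : Fˣ) = 1 := by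
  apply Units.ext
  ext i j
  fin_cases i <;> fin_cases j <;> simp [sca, bor]

lemma sca_comm {F : Type} [Field F] (a : Fˣ) (g : GL (Fin 2) F) : sca a * g = g * sca a := by
  apply Units.ext
  ext i j
  fin_cases i <;> fin_cases j <;>
    simp [sca, bor, Matrix.mul_apply, Fin.sum_univ_two, mul_comm]

lemma sca_inv {F : Type} [Field F] (a : Fˣ) : (sca a)⁻¹ = sca a⁻¹ := by
  rw [inv_eq_iff_mul_eq_one, ← sca_mul, mul_inv_cancel, sca_one]

/-! ## Elements of `GL_2(F_2[t])` -/

/-- `w` in `GL_2(F_2[t])`. -/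
def wmA : GL (Fin 2) A where
  val := !![0, 1; 1, 0]
  inv := !![0, 1; 1, 0]
  val_inv := by simp [Matrix.one_fin_two]
  inv_val := by simp [Matrix.one_fin_two]

/-- `(1,0;1,1)` in `GL_2(F_2[t])`. -/
def lwrA : GL (Fin 2) A where
  val := !![1, 0; 1, 1]
  inv := !![1, 0; -1, 1]
  val_inv := by simp [Matrix.one_fin_two]
  inv_val := by simp [Matrix.one_fin_two]

lemma glA_wmA : glA wmA = wm := by
  apply Units.ext
  ext i j
  fin_cases i <;> fin_cases j <;> simp [glA, wmA, wm]

lemma glA_lwrA : glA lwrA = lwr 1 := by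
  apply Units.ext
  ext i j
  fin_cases i <;> fin_cases j <;> simp [glA, lwrA, lwr]

lemma glA_upr (m : ℕ) : glA (upr (Polynomial.X ^ m)) = upr ((tInf : Kv none) ^ m) := by
  apply Units.ext
  ext i j
  have : (tInf : Kv none) = incl none RatFunc.X := rfl
  fin_cases i <;> fin_cases j <;> simp [glA, upr, this]

lemma dg_zero : dg (tInf ^ 0) 1 = 1 := by
  apply Units.ext
  ext i j
  fin_cases i <;> fin_cases j <;> simp [dg, bor]

lemma piInf_lt : val none (piInf : Kv none) < 1 := by
  rw [val_piInf, ← WithZero.exp_zero, WithZero.exp_lt_exp]; norm_num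

lemma lwr_pi_mem : lwr (piInf : Kv none) ∈ Iw (val none) :=
  ⟨lwr_mem piInf_lt.le, by simpa [lwr] using piInf_lt⟩

/-! ## The function on the tree -/

section tree

variable (hT : TaskTree)

/-- The number of the orbit of a vertex. -/
def nn (g : Gv none) : ℕ := (hT.1 g).choose_spec.choose

lemma nn_eq {g : Gv none} {γ : GL (Fin 2) A} {m : ℕ} {k : Gv none} {z : (Kv none)ˣ}
    (hk : k ∈ Cv none) (h : g = glA γ * dg (tInf ^ m) 1 * k * sca z) : nn hT g = m := by
  obtain ⟨k₀, z₀, hk₀, e⟩ := (hT.1 g).choose_spec.choose_spec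
  refine hT.2 ((hT.1 g).choose⁻¹ * γ) m _ (k * k₀⁻¹) (z * z₀⁻¹) (mul_mem hk (inv_mem hk₀)) ?_
  have e2 : glA (hT.1 g).choose * dg (tInf ^ nn hT g) 1 * k₀ * sca z₀ =
      glA γ * dg (tInf ^ m) 1 * k * sca z := e.symm.trans h
  have e3 : dg (tInf ^ nn hT g) 1 =
      (glA (hT.1 g).choose)⁻¹ * (glA γ * dg (tInf ^ m) 1 * k * sca z) * (sca z₀)⁻¹ * k₀⁻¹ := by
    rw [← e2]; group
  change dg (tInf ^ nn hT g) 1 = _
  rw [e3, map_mul, map_inv, sca_inv]
  simp only [mul_assoc]
  rw [← sca_comm (z * z₀⁻¹), sca_mul]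
  simp only [mul_assoc]

lemma nn_glA (γ : GL (Fin 2) A) (g : Gv none) : nn hT (glA γ * g) = nn hT g := by
  obtain ⟨γ₀, m, k, z, hk, e⟩ := hT.1 g
  rw [nn_eq hT hk e]
  refine nn_eq hT (γ := γ * γ₀) (z := z) hk ?_
  rw [map_mul]
  conv_lhs => rw [e]
  simp only [mul_assoc]

lemma nn_Cv (g : Gv none) {k : Gv none} (hk : k ∈ Cv none) : nn hT (g * k) = nn hT g := by
  obtain ⟨γ₀, m, k₀, z, hk₀, e⟩ := hT.1 g
  rw [nn_eq hT hk₀ e]
  refine nn_eq hT (γ := γ₀) (k := k₀ * k) (z := z) (mul_mem hk₀ hk) ?_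
  conv_lhs => rw [e]
  simp only [mul_assoc]
  rw [sca_comm]

lemma nn_sca (g : Gv none) (z : (Kv none)ˣ) : nn hT (g * sca z) = nn hT g := by
  obtain ⟨γ₀, m, k₀, z₀, hk₀, e⟩ := hT.1 g
  rw [nn_eq hT hk₀ e]
  refine nn_eq hT (γ := γ₀) (k := k₀) (z := z₀ * z) hk₀ ?_
  rw [sca_mul]
  conv_lhs => rw [e]
  simp only [mul_assoc]

lemma nn_dg (m : ℕ) : nn hT (dg (tInf ^ m) 1) = m := by
  refine nn_eq hT (γ := 1) (k := 1) (z := 1) (one_mem _) ?_
  rw [sca_one, map_one]; simp

/-- The weights. -/
def uu (j : ℕ) : ℂ := 4 * 2 ^ j - 3 * j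

/-- The harmonic cochain. -/
def F0 (h : Gv none) : ℂ := uu (nn hT (h * eta piInf)) - uu (nn hT h)

lemma F0_glA (γ : GL (Fin 2) A) (h : Gv none) : F0 hT (glA γ * h) = F0 hT h := by
  unfold F0
  rw [mul_assoc, nn_glA, nn_glA]

lemma F0_Iw (h : Gv none) {g : Gv none} (hg : g ∈ Iw (val none)) : F0 hT (h * g) = F0 hT h := by
  unfold F0
  have e : h * g * eta piInf = (h * eta piInf) * ((eta piInf)⁻¹ * g * eta piInf) := by group
  rw [e, nn_Cv hT _ (eta_conj hg), nn_Cv hT _ hg.1]

lemma F0_sca (h : Gv none) (z : (Kv none)ˣ) : F0 hT (h * sca z) = F0 hT h := by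
  unfold F0
  rw [mul_assoc, sca_comm, ← mul_assoc, nn_sca, nn_sca]

lemma F0_eta (h : Gv none) : F0 hT (h * eta piInf) = - F0 hT h := by
  unfold F0
  rw [mul_assoc, eta_sq, nn_sca]; ring

lemma lwr1_mem : (lwr 1 : Gv none) ∈ Cv none := lwr_mem (by simp)

lemma wm_mem' : (wm : Gv none) ∈ Cv none := wm_mem

lemma nn_dg_eta (m : ℕ) : nn hT (dg (tInf ^ m) 1 * eta piInf) = m + 1 := by
  rw [id_one, nn_sca, nn_Cv hT _ wm_mem', nn_dg]

variable (hres : ∀ x, val none x ≤ 1 → val none x < 1 ∨ val none (x - 1) < 1)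

include hres in
lemma F0_sum (h : Gv none) : F0 hT h + F0 hT (h * wm) + F0 hT (h * lwr 1) = 3 := by
  obtain ⟨γ, m, k, z, hk, rfl⟩ := hT.1 h
  have e1 : ∀ x : Gv none, F0 hT (glA γ * dg (tInf ^ m) 1 * k * sca z * x) =
      F0 hT (dg (tInf ^ m) 1 * (k * x)) := by
    intro x
    rw [mul_assoc _ (sca z), sca_comm, ← mul_assoc, F0_sca, mul_assoc, mul_assoc, F0_glA]
  have e0 : F0 hT (glA γ * dg (tInf ^ m) 1 * k * sca z) = F0 hT (dg (tInf ^ m) 1 * k) := by
    have := e1 1
    rwa [mul_one, mul_one] at this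
  rw [e0, e1, e1]
  have key := sum_inv hres (fun x => F0 hT (dg (tInf ^ m) 1 * x)) (fun g i hi => by
    rw [← mul_assoc, F0_Iw hT _ hi]) hk
  refine key.trans ?_
  change F0 hT (dg (tInf ^ m) 1 * 1) + F0 hT (dg (tInf ^ m) 1 * wm) +
    F0 hT (dg (tInf ^ m) 1 * lwr 1) = 3
  rw [mul_one]
  cases m with
  | zero =>
    have h1 : F0 hT (dg (tInf ^ 0) 1) = 1 := by
      unfold F0
      rw [nn_dg_eta, nn_dg]
      simp [uu]; norm_num
    have h2 : F0 hT (dg (tInf ^ 0) 1 * wm) = 1 := by
      rw [← h1, dg_zero, one_mul, ← glA_wmA]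
      have := F0_glA hT wmA 1
      rwa [mul_one] at this
    have h3 : F0 hT (dg (tInf ^ 0) 1 * lwr 1) = 1 := by
      rw [← h1, dg_zero, one_mul, ← glA_lwrA]
      have := F0_glA hT lwrA 1
      rwa [mul_one] at this
    rw [h1, h2, h3]; norm_num
  | succ m =>
    have h1 : F0 hT (dg (tInf ^ (m + 1)) 1) = uu (m + 2) - uu (m + 1) := by
      unfold F0
      rw [nn_dg_eta, nn_dg]
    have h2 : F0 hT (dg (tInf ^ (m + 1)) 1 * wm) = uu m - uu (m + 1) := by
      unfold F0
      rw [id_two, nn_dg, nn_Cv hT _ wm_mem', nn_dg]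
    have h3 : F0 hT (dg (tInf ^ (m + 1)) 1 * lwr 1) = uu m - uu (m + 1) := by
      unfold F0
      rw [id_three, nn_Cv hT _ lwr_pi_mem.1, ← glA_upr, nn_glA, nn_dg, nn_Cv hT _ lwr1_mem, nn_dg]
    rw [h1, h2, h3]
    unfold uu
    push_cast
    ring

end tree

/-- Uniqueness on `GL_2(K_∞)`. -/
lemma uniq (hT : TaskTree) (hres : ∀ x, val none x ≤ 1 → val none x < 1 ∨ val none (x - 1) < 1)
    (f : Gv none → ℂ) (h1 : ∀ γ h, f (glA γ * h) = f h)
    (h2 : ∀ h, ∀ i ∈ Iw (val none), f (h * i) = f h)
    (h3 : ∀ h z, f (h * sca z) = f h) (h4 : ∀ h, f (h * eta piInf) = - f h)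
    (h5 : ∀ h, f h + f (h * wm) + f (h * lwr 1) = 0) (h : Gv none) : f h = 0 := by
  have key : ∀ m, f (dg (tInf ^ m) 1) = 0 ∧ f (dg (tInf ^ m) 1 * wm) = 0 ∧
      f (dg (tInf ^ m) 1 * lwr 1) = 0 := by
    intro m
    induction m with
    | zero =>
      have e1 : f (dg (tInf ^ 0) 1 * wm) = f (dg (tInf ^ 0) 1) := by
        rw [dg_zero, one_mul, ← glA_wmA]
        have := h1 wmA 1
        rwa [mul_one] at this
      have e2 : f (dg (tInf ^ 0) 1 * lwr 1) = f (dg (tInf ^ 0) 1) := by
        rw [dg_zero, one_mul, ← glA_lwrA]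
        have := h1 lwrA 1
        rwa [mul_one] at this
      have e3 := h5 (dg (tInf ^ 0) 1)
      rw [e1, e2] at e3
      have e4 : f (dg (tInf ^ 0) 1) = 0 := by
        have : (3 : ℂ) * f (dg (tInf ^ 0) 1) = 0 := by rw [← e3]; ring
        simpa using this
      exact ⟨e4, e1.trans e4, e2.trans e4⟩
    | succ m ih =>
      have e1 : f (dg (tInf ^ (m + 1)) 1 * wm) = 0 := by
        have := h4 (dg (tInf ^ (m + 1)) 1 * wm)
        rw [id_two, ih.1] at this
        exact neg_eq_zero.1 this.symm
      have e2 : f (dg (tInf ^ (m + 1)) 1 * lwr 1) = 0 := by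
        have := h4 (dg (tInf ^ (m + 1)) 1 * lwr 1)
        rw [id_three, h2 _ _ lwr_pi_mem, ← glA_upr, h1, ih.1] at this
        exact neg_eq_zero.1 this.symm
      have e3 := h5 (dg (tInf ^ (m + 1)) 1)
      rw [e1, e2, add_zero, add_zero] at e3
      exact ⟨e3, e1, e2⟩
  obtain ⟨γ, m, k, z, hk, rfl⟩ := hT.1 h
  rw [h3, mul_assoc, h1]
  have e := eq_phi hres (fun x => f (dg (tInf ^ m) 1 * x)) (fun g i hi => by
    rw [← mul_assoc, h2 _ _ hi]) hk
  refine e.trans ?_
  unfold phi
  obtain ⟨k1, k2, k3⟩ := key m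
  split_ifs
  · change f (dg (tInf ^ m) 1 * 1) = 0
    rw [mul_one, k1]
  · exact k2
  · exact k3

/-! ## Adelic part -/

lemma sing_same (v : Place) (h : Gv v) : sing v h v = h := by
  classical
  exact RestrictedProduct.mulSingle_eq_same Cv v h

lemma sing_ne {v w : Place} (h : Gv v) (hw : w ≠ v) : sing v h w = 1 := by
  classical
  exact RestrictedProduct.mulSingle_eq_of_ne Cv h hw

lemma exists_glA {δ : GL (Fin 2) K} (hδ : ∀ v : HeightOneSpectrum A, glIncl (some v) δ ∈ Cv (some v)) :
    ∃ δ₀ : GL (Fin 2) A, Matrix.GeneralLinearGroup.map (algebraMap A K) δ₀ = δ := by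
  have h1 : ∀ i j, ∃ a : A, algebraMap A K a = δ.val i j := by
    intro i j
    refine HeightOneSpectrum.mem_integers_of_valuation_le_one K _ (fun v => ?_)
    have := (hδ v).1 i j
    have h2 : val (some v) (incl (some v) (δ.val i j)) ≤ 1 := this
    rw [val_incl] at h2
    exact h2
  have h2 : ∀ i j, ∃ a : A, algebraMap A K a = δ⁻¹.val i j := by
    intro i j
    refine HeightOneSpectrum.mem_integers_of_valuation_le_one K _ (fun v => ?_)
    have := (inv_mem (hδ v)).1 i j
    rw [← map_inv] at this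
    have h2 : val (some v) (incl (some v) (δ⁻¹.val i j)) ≤ 1 := this
    rw [val_incl] at h2
    exact h2
  choose a ha using h1
  choose b hb using h2
  have hinj : Function.Injective (algebraMap A K) := IsFractionRing.injective A K
  have hmap : ∀ M N : Matrix (Fin 2) (Fin 2) A, M.map (algebraMap A K) = N.map (algebraMap A K) →
      M = N := fun M N h => by
    refine Matrix.ext fun i j => ?_
    exact hinj (congrFun (congrFun h i) j)
  have ea : (Matrix.of a).map (algebraMap A K) = δ.val := by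
    ext i j; exact ha i j
  have eb : (Matrix.of b).map (algebraMap A K) = δ⁻¹.val := by
    ext i j; exact hb i j
  refine ⟨⟨Matrix.of a, Matrix.of b, ?_, ?_⟩, ?_⟩
  · apply hmap
    rw [Matrix.map_mul, ea, eb, Matrix.map_one _ (map_zero _) (map_one _), ← Units.val_mul,
      mul_inv_cancel, Units.val_one]
  · apply hmap
    rw [Matrix.map_mul, ea, eb, Matrix.map_one _ (map_zero _) (map_one _), ← Units.val_mul,
      inv_mul_cancel, Units.val_one]
  · apply Units.ext
    exact ea

lemma glA_integral (δ : GL (Fin 2) A) (v : HeightOneSpectrum A) :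
    glIncl (some v) (Matrix.GeneralLinearGroup.map (algebraMap A K) δ) ∈ Cv (some v) := by
  have key : ∀ δ : GL (Fin 2) A, ∀ i j,
      val (some v) ((glIncl (some v) (Matrix.GeneralLinearGroup.map (algebraMap A K) δ)).val i j)
        ≤ 1 := by
    intro δ i j
    have e : (glIncl (some v) (Matrix.GeneralLinearGroup.map (algebraMap A K) δ)).val i j =
        incl (some v) (algebraMap A K (δ.val i j)) := rfl
    rw [e, val_incl]
    exact HeightOneSpectrum.valuation_le_one v _
  refine ⟨key δ, ?_⟩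
  rw [← map_inv, ← map_inv]
  exact key _

section adelic

variable (hC : TaskClass)

/-- A representative. -/
def rep (g : GA) : GL (Fin 2) K := (hC g).choose

lemma rep_spec (g : GA) (v : HeightOneSpectrum A) : (diag (rep hC g) * g) (some v) ∈ Cv (some v) :=
  (hC g).choose_spec v

/-- The function on the adelic group. -/
def lift (f : Gv none → ℂ) (g : GA) : ℂ := f ((diag (rep hC g) * g) none)

lemma lift_eq (f : Gv none → ℂ) (h1 : ∀ γ h, f (glA γ * h) = f h) {g : GA} {γ : GL (Fin 2) K}
    (h : ∀ v : HeightOneSpectrum A, (diag γ * g) (some v) ∈ Cv (some v)) :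
    lift hC f g = f ((diag γ * g) none) := by
  have hδ : ∀ v : HeightOneSpectrum A, glIncl (some v) (rep hC g * γ⁻¹) ∈ Cv (some v) := by
    intro v
    have e : glIncl (some v) (rep hC g * γ⁻¹) =
        (diag (rep hC g) * g) (some v) * ((diag γ * g) (some v))⁻¹ := by
      rw [RestrictedProduct.mul_apply, RestrictedProduct.mul_apply, diag_apply, diag_apply,
        map_mul, map_inv]
      group
    rw [e]
    exact mul_mem (rep_spec hC g v) (inv_mem (h v))
  obtain ⟨δ, hδ'⟩ := exists_glA hδ
  unfold lift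
  have e : (diag (rep hC g) * g) none = glA δ * (diag γ * g) none := by
    have e1 : glA δ = glIncl none (rep hC g * γ⁻¹) := by rw [← hδ']; rfl
    rw [e1, RestrictedProduct.mul_apply, RestrictedProduct.mul_apply, diag_apply, diag_apply,
      map_mul, map_inv]
    group
  rw [e, h1]

lemma lift_diag (f : Gv none → ℂ) (h1 : ∀ γ h, f (glA γ * h) = f h) (γ : GL (Fin 2) K) (g : GA) :
    lift hC f (diag γ * g) = lift hC f g := by
  have e : diag (rep hC g * γ⁻¹) * (diag γ * g) = diag (rep hC g) * g := by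
    rw [map_mul, map_inv]; group
  rw [lift_eq hC f h1 (γ := rep hC g * γ⁻¹) (g := diag γ * g) (fun v => by
    rw [e]; exact rep_spec hC g v), e]
  rfl

lemma lift_Cfin (f : Gv none → ℂ) (h1 : ∀ γ h, f (glA γ * h) = f h) {c : GA} (hc : c ∈ Cfin)
    (g : GA) : lift hC f (g * c) = lift hC f g := by
  rw [lift_eq hC f h1 (γ := rep hC g) (g := g * c) (fun v => by
    rw [← mul_assoc, RestrictedProduct.mul_apply]
    exact mul_mem (rep_spec hC g v) (hc.2 _))]
  rw [← mul_assoc, RestrictedProduct.mul_apply, hc.1, mul_one]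
  rfl

lemma lift_sing (f : Gv none → ℂ) (h1 : ∀ γ h, f (glA γ * h) = f h) (h : Gv none) (g : GA) :
    lift hC f (g * sing none h) = f ((diag (rep hC g) * g) none * h) := by
  rw [lift_eq hC f h1 (γ := rep hC g) (g := g * sing none h) (fun v => by
    rw [← mul_assoc, RestrictedProduct.mul_apply, sing_ne h (by simp), mul_one]
    exact rep_spec hC g v)]
  rw [← mul_assoc, RestrictedProduct.mul_apply, sing_same]

end adelic

end TF2

open TF2 in
/-- LL/14 -/
theorem TaskF2_proof (hC : TaskClass) (hT : TaskTree) (hG : TaskGlob) : TaskF2 := by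
  have hres := hG.1
  refine ⟨⟨lift hC (F0 hT), ?_, ?_, ?_, ?_, ?_, ?_⟩, ?_⟩
  · intro γ g
    exact lift_diag hC _ (F0_glA hT) γ g
  · intro c hc g
    exact lift_Cfin hC _ (F0_glA hT) hc g
  · intro g hg
    funext x
    change lift hC (F0 hT) (x * sing none g) = _
    rw [lift_sing hC _ (F0_glA hT), F0_Iw hT _ hg]
    rfl
  · intro z
    funext x
    change lift hC (F0 hT) (x * sing none (sca z)) = _
    rw [lift_sing hC _ (F0_glA hT), F0_sca hT]
    rfl
  · funext x
    change lift hC (F0 hT) (x * sing none (eta piInf)) = _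
    rw [lift_sing hC _ (F0_glA hT), F0_eta hT]
    rfl
  · intro x
    change lift hC (F0 hT) x + lift hC (F0 hT) (x * sing none wm) +
      lift hC (F0 hT) (x * sing none (lwr 1)) = 3
    rw [lift_sing hC _ (F0_glA hT), lift_sing hC _ (F0_glA hT)]
    exact F0_sum hT hres _
  · intro f hf1 hf2 hS
    have key : ∀ h : Gv none, f (sing none h) = 0 := by
      refine uniq hT hres (fun h => f (sing none h)) ?_ ?_ ?_ ?_ ?_
      · intro γ h
        have hc : (diag (Matrix.GeneralLinearGroup.map (algebraMap A K) γ))⁻¹ *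
            sing none (glA γ) ∈ Cfin := by
          constructor
          · rw [RestrictedProduct.mul_apply, RestrictedProduct.inv_apply, diag_apply, sing_same]
            exact inv_mul_cancel _
          · rintro (_ | v)
            · rw [RestrictedProduct.mul_apply, RestrictedProduct.inv_apply, diag_apply, sing_same]
              have : (glIncl none (Matrix.GeneralLinearGroup.map (algebraMap A K) γ))⁻¹ *
                glA γ = 1 := inv_mul_cancel _
              rw [this]; exact one_mem _
            · rw [RestrictedProduct.mul_apply, RestrictedProduct.inv_apply, diag_apply,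
                sing_ne _ (by simp), mul_one]
              exact inv_mem (glA_integral γ v)
        have hcomm : sing none (glA γ * h) =
            diag (Matrix.GeneralLinearGroup.map (algebraMap A K) γ) * (sing none h *
            ((diag (Matrix.GeneralLinearGroup.map (algebraMap A K) γ))⁻¹ *
              sing none (glA γ))) := by
          ext1 w
          simp only [RestrictedProduct.mul_apply, RestrictedProduct.inv_apply, diag_apply]
          rcases w with _ | w
          · rw [sing_same, sing_same, sing_same]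
            have : (glIncl none (Matrix.GeneralLinearGroup.map (algebraMap A K) γ))⁻¹ *
                glA γ = 1 := inv_mul_cancel _
            rw [this, mul_one]
            rfl
          · rw [sing_ne _ (by simp), sing_ne _ (by simp), sing_ne _ (by simp)]
            group
        change f (sing none (glA γ * h)) = f (sing none h)
        rw [hcomm, hf1, hf2 _ hc]
      · intro h i hi
        have := congrFun (hS.iw i hi) (sing none h)
        change f (sing none (h * i)) = f (sing none h)
        rw [map_mul]; exact this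
      · intro h z
        have := congrFun (hS.sca z) (sing none h)
        change f (sing none (h * sca z)) = f (sing none h)
        rw [map_mul]; exact this
      · intro h
        have := congrFun hS.eta (sing none h)
        change f (sing none (h * eta piInf)) = - f (sing none h)
        rw [map_mul]; exact this
      · intro h
        have := congrFun hS.sum (sing none h)
        change f (sing none h) + f (sing none (h * wm)) + f (sing none (h * lwr 1)) = 0
        rw [map_mul, map_mul]; exact this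
    funext g
    obtain ⟨γ, hγ⟩ := hC g
    have hc : (sing none ((diag γ * g) none))⁻¹ * (diag γ * g) ∈ Cfin := by
      constructor
      · rw [RestrictedProduct.mul_apply, RestrictedProduct.inv_apply, sing_same]
        exact inv_mul_cancel _
      · rintro (_ | v)
        · rw [RestrictedProduct.mul_apply, RestrictedProduct.inv_apply, sing_same,
            inv_mul_cancel]
          exact one_mem _
        · rw [RestrictedProduct.mul_apply, RestrictedProduct.inv_apply, sing_ne _ (by simp),
            inv_one, one_mul]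
          exact hγ v
    have e := hf2 _ hc (sing none ((diag γ * g) none))
    rw [mul_inv_cancel_left, hf1, key] at e
    exact e

end N589LL
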